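import Mathlib
import Pool.Agent.R241.AS3

/-!
# Average shadowing, a measure of full support, and minimal points which are not dense

We show that there is a compact system with the asymptotic average shadowing property and the average
shadowing property, which has an invariant measure of full support, and whose minimal points are not
dense.

The system is the one-sided subshift of the sequences `x` of zeros and ones such that for every `k`
every window of length `2 M_k`, `M_k = 2 ^ (k ^ 2 + 3)`, contains `k` consecutive zeros (the letters
at the negative places are zero). The only minimal point is the zero sequence. A sequence of points
is shadowed by the sequence of their first letters after it has been changed to zero at a set of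
places of a small density: for every `k`, at the first `k` places of the blocks of length `M_k`
before the time `t_k`, and after this time on the windows without `k` consecutive zeros. The
invariant measures are obtained from sequences in which a given word is repeated periodically.
-/

set_option autoImplicit false

open Set MeasureTheory Pool.Agent.R241.AS

namespace Pool.Agent.Results.MP_9e49d7_an.MinimalPointsNotDense

/-- There are a compact metric space `X` and a continuous surjection `f : X → X` with the asymptotic
average shadowing property and the average shadowing property, and an `f`-invariant Borel
probability measure of full support, such that the minimal points of `f` are not dense in `X`. -/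
theorem result : ∃ (X : Type) (_ : MetricSpace X) (_ : CompactSpace X) (_ : MeasurableSpace X)
    (_ : BorelSpace X) (f : X → X), Continuous f ∧ Function.Surjective f ∧ AASP f ∧ ASP f ∧
    (∃ μ : Measure X, IsProbabilityMeasure μ ∧ MeasurePreserving f μ μ ∧
      ∀ U : Set X, IsOpen U → U.Nonempty → 0 < μ U) ∧
    ¬ Dense {x : X | IsMinimalPoint f x} :=
  ⟨XX, inferInstance, inferInstance, inferInstance, inferInstance, T, continuous_sh, T_surjective,
    aasp_T, asp_T, exists_full, not_dense_minimal⟩

end Pool.Agent.Results.MP_9e49d7_an.MinimalPointsNotDense
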